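import Pool.Agent.FS.CayleyMRF.Neg
import Pool.Agent.FS.CayleyMRF.Pos

set_option autoImplicit false

namespace Pool.Agent.Results.MP_83a7f3_pr.CayleyTorsion

open MeasureTheory Pool.Agent.FS.CayleyMRF

/-- The Cayley graph of a countable group with respect to a finite set `S` carries a
left-invariant, finitely dependent Markov random field supported on proper colourings with
finitely many colours exactly when every element of `S` has finite order. -/
theorem result (Γ : Type) [Group Γ] [Countable Γ] (S : Finset Γ) :
    (∃ (q : ℕ) (μ : Measure (Γ → Fin q)), IsProbabilityMeasure μ ∧ Invariant μ ∧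
      FinDep (SimpleGraph.mulCayley (S : Set Γ)) μ ∧
      Markov (SimpleGraph.mulCayley (S : Set Γ)) μ ∧
      Proper (SimpleGraph.mulCayley (S : Set Γ)) μ) ↔ ∀ s ∈ S, IsOfFinOrder s :=
  ⟨fun ⟨_, _, _, hI, hF, hM, hP⟩ _ hs => neg_main S hI hF hM hP hs,
    fun h => pos_main h (cay_fin S)⟩

end Pool.Agent.Results.MP_83a7f3_pr.CayleyTorsion
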