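import Pool.Agent.Lib.MP_83a7f3_pr.Block

set_option autoImplicit false

namespace Pool.Agent.Results.MP_83a7f3_pr.PeriodicSupport

open Pool.Agent.Lib.MP_83a7f3_pr MeasureTheory

/-- A subgroup `Λ` of `ℤ^d` fixes a configuration in the support of every shift-invariant finitely
dependent Markov random field exactly when it is cyclic. -/
theorem result (d : ℕ) (Λ : AddSubgroup (Fin d → ℤ)) :
    (∀ (q : ℕ) (μ : Measure ((Fin d → ℤ) → Fin q)), IsProbabilityMeasure μ → ShiftInvariant μ →
      FinitelyDependent μ → MarkovRandomField μ →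
      ∃ x, InSupport μ x ∧ ∀ t ∈ Λ, ∀ u, x (u + t) = x u) ↔
      ∃ v, Λ = AddSubgroup.zmultiples v :=
  classify Λ

/-- The case of a unit vector: no such field is supported on proper colourings. -/
theorem no_colouring (d q : ℕ) (hd : 1 ≤ d) (μ : Measure ((Fin d → ℤ) → Fin q))
    (h : IsProbabilityMeasure μ) (hS : ShiftInvariant μ) (hF : FinitelyDependent μ)
    (hP : SupportedOnProper μ) : ¬ MarkovRandomField μ := by
  intro hM
  obtain ⟨x, hx, hx'⟩ := (result d _).2 ⟨Pi.single ⟨0, hd⟩ 1, rfl⟩ q μ h hS hF hM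
  refine (hx {0, 0 + Pi.single ⟨0, hd⟩ 1}).ne' (measure_mono_null ?_ (ae_iff.1 hP))
  intro y hy hc
  refine hc _ _ (dist1_step 0 ⟨0, hd⟩).1 ?_
  rw [hy _ (by simp), hy _ (by simp), hx' _ (AddSubgroup.mem_zmultiples _)]

end Pool.Agent.Results.MP_83a7f3_pr.PeriodicSupport
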